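import Mathlib

/-!
# MP_23516e_gt: a compactum cleavable over an ordinal which does not embed into it
-/

set_option autoImplicit false

open Set Topology Filter Ordinal
open scoped Ordinal OnePoint

universe u v

namespace Pool.Agent.Results.MP_23516e_gt.NotEmbeddable

/-- `X` is cleavable over `Y` -/
def Cleavable (X : Type u) (Y : Type v) [TopologicalSpace X] [TopologicalSpace Y] : Prop :=
  ∀ A : Set X, ∃ f : X → Y, Continuous f ∧ Disjoint (f '' A) (f '' Aᶜ)

/-- the interval `[0, ω₁]` -/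
abbrev B : Type 1 := Iic (ω₁ : Ordinal.{0})

/-- the compactum: three copies of the one-point compactification of a countable sum of copies of
`[0, ω₁]` (each of these is a copy of `[0, ω₁ · ω]`) -/
abbrev X : Type 1 := Fin 3 × OnePoint (ℕ × B)

/-- the ordinal `ω₁ · ω + ω₁ · ω + 1` -/
noncomputable def lam : Ordinal.{0} := (ω₁ : Ordinal.{0}) * ω + ω₁ * ω + 1

theorem one_pos' : (0 : Ordinal.{0}) < ω₁ := omega0_pos.trans omega0_lt_omega_one

theorem lim1 : Order.IsSuccLimit (ω₁ : Ordinal.{0}) := Cardinal.isSuccLimit_omega 1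

theorem one_add_le {b : Ordinal.{0}} (hb : b ≤ ω₁) : 1 + b ≤ ω₁ := by
  have : 1 + (ω₁ : Ordinal.{0}) = ω₁ := one_add_of_omega0_le omega0_lt_omega_one.le
  calc 1 + b ≤ 1 + ω₁ := by gcongr
    _ = ω₁ := this

theorem block_le {m m' : ℕ} (h : m < m') {b : Ordinal.{0}} (hb : b ≤ ω₁) :
    (ω₁ : Ordinal.{0}) * m + (1 + b) ≤ ω₁ * m' := by
  calc (ω₁ : Ordinal.{0}) * m + (1 + b) ≤ ω₁ * m + ω₁ := by gcongr; exact one_add_le hb
    _ = ω₁ * (m + 1 : ℕ) := by rw [Nat.cast_add_one, mul_add, mul_one]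
    _ ≤ ω₁ * m' := by gcongr; exact_mod_cast h

theorem block_lt {m : ℕ} {b : Ordinal.{0}} (hb : b ≤ ω₁) : (ω₁ : Ordinal.{0}) * m + (1 + b) < ω₁ * ω := by
  calc (ω₁ : Ordinal.{0}) * m + (1 + b) ≤ ω₁ * (m + 1 : ℕ) := block_le (Nat.lt_succ_self m) hb
    _ < ω₁ * ω := (mul_lt_mul_iff_right₀ one_pos').mpr (natCast_lt_omega0 _)

theorem lt_block {m : ℕ} {b : Ordinal.{0}} : (ω₁ : Ordinal.{0}) * m < ω₁ * m + (1 + b) := by
  have : (0 : Ordinal.{0}) < 1 + b := lt_of_lt_of_le zero_lt_one le_self_add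
  simpa using (add_lt_add_iff_left ((ω₁ : Ordinal.{0}) * m)).mpr this

theorem block_inj {m m' : ℕ} {b b' : Ordinal.{0}} (hb : b ≤ ω₁) (hb' : b' ≤ ω₁)
    (h : (ω₁ : Ordinal.{0}) * m + (1 + b) = ω₁ * m' + (1 + b')) : m = m' ∧ b = b' := by
  rcases lt_trichotomy m m' with hm | hm | hm
  · exact absurd h ((block_le hm hb).trans_lt lt_block).ne
  · subst hm
    exact ⟨rfl, by simpa using h⟩
  · exact absurd h ((block_le hm hb').trans_lt lt_block).ne'

/-- the map of one copy -/
noncomputable def G (base : Ordinal.{0}) (m : ℕ → ℕ) : OnePoint (ℕ × B) → Ordinal.{0} :=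
  fun z => OnePoint.elim z (base + ω₁ * ω) (fun p : ℕ × B => base + (ω₁ * (m p.1 : ℕ) + (1 + p.2.1)))

theorem G_infty (base : Ordinal.{0}) (m : ℕ → ℕ) : G base m ∞ = base + ω₁ * ω := rfl
theorem G_coe (base : Ordinal.{0}) (m : ℕ → ℕ) (p : ℕ × B) :
    G base m (p : OnePoint (ℕ × B)) = base + (ω₁ * (m p.1 : ℕ) + (1 + p.2.1)) := rfl

theorem G_le (base : Ordinal.{0}) (m : ℕ → ℕ) (z : OnePoint (ℕ × B)) : G base m z ≤ base + ω₁ * ω := by
  induction z using OnePoint.rec with
  | infty => exact le_rfl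
  | coe p =>
    rw [G_coe]
    gcongr
    exact (block_lt (mem_Iic.mp p.2.2)).le

theorem G_continuous (base : Ordinal.{0}) {m : ℕ → ℕ} (hm : ∀ n, n ≤ m n) : Continuous (G base m) := by
  rw [OnePoint.continuous_iff]
  constructor
  · rw [G_infty]
    intro U hU
    have hlim : Order.IsSuccLimit (base + ω₁ * ω) :=
      (isNormal_add_right base).map_isSuccLimit (isSuccLimit_mul_right one_pos' isSuccLimit_omega0)
    obtain ⟨c, hc, hcU⟩ := exists_Ioc_subset_of_mem_nhds hU ⟨0, hlim.bot_lt⟩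
    -- find a block beyond `c`
    obtain ⟨N, hN⟩ : ∃ N : ℕ, c < base + ω₁ * N := by
      rcases lt_or_ge c base with h | h
      · exact ⟨0, by simpa using h⟩
      · obtain ⟨d, rfl⟩ := exists_add_of_le h
        have hd : d < ω₁ * ω := (add_lt_add_iff_left base).mp hc
        obtain ⟨e, he, hde⟩ := (lt_mul_iff_of_isSuccLimit isSuccLimit_omega0).mp hd
        obtain ⟨n, rfl⟩ := lt_omega0.mp he
        exact ⟨n, (add_lt_add_iff_left base).mpr hde⟩
    have hK : {p : ℕ × B | N ≤ p.1} ∈ coclosedCompact (ℕ × B) := by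
      rw [mem_coclosedCompact_iff]
      have h1 : {p : ℕ × B | N ≤ p.1}ᶜ = (Iio N) ×ˢ (univ : Set B) := by
        ext p; simp
      rw [h1]
      have h2 : IsClosed ((Iio N) ×ˢ (univ : Set B)) := (isClosed_discrete _).prod isClosed_univ
      rw [h2.closure_eq]
      have hB : CompactSpace B := isCompact_iff_compactSpace.mp (by
        rw [← Icc_bot]; exact isCompact_Icc)
      exact ((finite_Iio N).isCompact).prod isCompact_univ
    rw [Filter.mem_map]
    refine Filter.mem_of_superset hK ?_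
    intro p hp
    refine hcU ⟨?_, ?_⟩
    · change c < G base m (p : OnePoint (ℕ × B))
      rw [G_coe]
      refine hN.trans_le ?_
      have h3 : (N : Ordinal.{0}) ≤ (m p.1 : ℕ) := by
        exact_mod_cast (le_trans (show N ≤ p.1 from hp) (hm p.1))
      calc base + (ω₁ : Ordinal.{0}) * N ≤ base + ω₁ * (m p.1 : ℕ) := by gcongr
        _ ≤ base + (ω₁ * (m p.1 : ℕ) + (1 + p.2.1)) := by
          gcongr
          exact le_self_add
    · exact G_le base m (p : OnePoint (ℕ × B))
  · rw [continuous_prod_of_discrete_left]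
    intro n
    have h1 : Continuous (fun b : Ordinal.{0} => base + (ω₁ * (m n : ℕ) + (1 + b))) :=
      (isNormal_add_right base).continuous.comp
        ((isNormal_add_right _).continuous.comp (isNormal_add_right 1).continuous)
    exact h1.comp continuous_subtype_val

theorem G_pos (base : Ordinal.{0}) (m : ℕ → ℕ) (z : OnePoint (ℕ × B)) : base < G base m z := by
  induction z using OnePoint.rec with
  | infty =>
    rw [G_infty]
    have : (0 : Ordinal.{0}) < ω₁ * ω := mul_pos one_pos' omega0_pos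
    simpa using (add_lt_add_iff_left base).mpr this
  | coe p =>
    rw [G_coe]
    have : (0 : Ordinal.{0}) < ω₁ * (m p.1 : ℕ) + (1 + p.2.1) := zero_le.trans_lt lt_block
    simpa using (add_lt_add_iff_left base).mpr this

theorem G_coe_lt (base : Ordinal.{0}) (m : ℕ → ℕ) (p : ℕ × B) :
    G base m (p : OnePoint (ℕ × B)) < base + ω₁ * ω := by
  rw [G_coe]
  exact (add_lt_add_iff_left base).mpr (block_lt (mem_Iic.mp p.2.2))

/-- two maps with the same base agree only at points of the same block -/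
theorem G_eq {base : Ordinal.{0}} {m m' : ℕ → ℕ} {z z' : OnePoint (ℕ × B)} (h : G base m z = G base m' z') :
    (z = ∞ ∧ z' = ∞) ∨ ∃ p p' : ℕ × B, z = p ∧ z' = p' ∧ m p.1 = m' p'.1 ∧ p.2 = p'.2 := by
  induction z using OnePoint.rec with
  | infty =>
    induction z' using OnePoint.rec with
    | infty => exact Or.inl ⟨rfl, rfl⟩
    | coe p' =>
      rw [G_infty] at h
      exact absurd h.symm (G_coe_lt base m' p').ne
  | coe p =>
    induction z' using OnePoint.rec with
    | infty =>
      rw [G_infty] at h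
      exact absurd h (G_coe_lt base m p).ne
    | coe p' =>
      right
      refine ⟨p, p', rfl, rfl, ?_⟩
      rw [G_coe, G_coe] at h
      have h1 := (add_right_inj base).mp h
      obtain ⟨h2, h3⟩ := block_inj (mem_Iic.mp p.2.2) (mem_Iic.mp p'.2.2) h1
      exact ⟨h2, Subtype.ext h3⟩

/-- the cleaving map which identifies the points at infinity of the copies `i` and `j` only -/
noncomputable def clv (i j : Fin 3) (x : X) : Ordinal.{0} :=
  if x.1 = i then G 0 (fun n => 2 * n) x.2 else if x.1 = j then G 0 (fun n => 2 * n + 1) x.2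
  else G (ω₁ * ω) (fun n => n) x.2

theorem clv_continuous (i j : Fin 3) : Continuous (clv i j) := by
  rw [continuous_prod_of_discrete_left]
  intro l
  by_cases h1 : l = i
  · have : (fun z => clv i j (l, z)) = G 0 (fun n => 2 * n) := by funext z; simp [clv, h1]
    rw [this]; exact G_continuous 0 (fun n => by omega)
  · by_cases h2 : l = j
    · have : (fun z => clv i j (l, z)) = G 0 (fun n => 2 * n + 1) := by
        funext z; simp only [clv, if_neg h1, if_pos h2]
      rw [this]; exact G_continuous 0 (fun n => by omega)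
    · have : (fun z => clv i j (l, z)) = G (ω₁ * ω) (fun n => n) := by
        funext z; simp only [clv, if_neg h1, if_neg h2]
      rw [this]; exact G_continuous _ (fun n => le_rfl)

theorem clv_lt (i j : Fin 3) (x : X) : clv i j x < lam := by
  have h1 : ∀ m z, G 0 m z < lam := fun m z => by
    refine (G_le 0 m z).trans_lt ?_
    rw [zero_add]
    unfold lam
    rw [← Order.succ_eq_add_one, Order.lt_succ_iff]
    exact le_self_add
  have h2 : ∀ m z, G (ω₁ * ω) m z < lam := fun m z => by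
    refine (G_le _ m z).trans_lt ?_
    unfold lam
    rw [← Order.succ_eq_add_one, Order.lt_succ_iff]
  unfold clv
  split_ifs
  · exact h1 _ _
  · exact h1 _ _
  · exact h2 _ _

theorem clv_eq {i j : Fin 3} (hij : i ≠ j) {x y : X} (h : clv i j x = clv i j y) :
    x = y ∨ ((x = (i, ∞) ∨ x = (j, ∞)) ∧ (y = (i, ∞) ∨ y = (j, ∞))) := by
  have hthird : ∀ l l' : Fin 3, l ≠ i → l ≠ j → l' ≠ i → l' ≠ j → l = l' := by
    intro l l' h1 h2 h3 h4
    omega
  have hlow : ∀ m z, G 0 m z ≤ ω₁ * ω := fun m z => by simpa using G_le 0 m z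
  obtain ⟨l, z⟩ := x
  obtain ⟨l', z'⟩ := y
  simp only [clv] at h
  by_cases h1 : l = i
  · subst h1
    rw [if_pos rfl] at h
    by_cases h1' : l' = l
    · subst h1'
      rw [if_pos rfl] at h
      left
      rcases G_eq h with ⟨rfl, rfl⟩ | ⟨p, p', rfl, rfl, h3, h4⟩
      · rfl
      · have : p = p' := Prod.ext (by simpa using h3) h4
        rw [this]
    · rw [if_neg h1'] at h
      by_cases h2' : l' = j
      · subst h2'
        rw [if_pos rfl] at h
        rcases G_eq h with ⟨rfl, rfl⟩ | ⟨p, p', rfl, rfl, h3, h4⟩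
        · exact Or.inr ⟨Or.inl rfl, Or.inr rfl⟩
        · exfalso; omega
      · rw [if_neg h2'] at h
        exact absurd h ((hlow _ _).trans_lt (G_pos _ _ _)).ne
  · rw [if_neg h1] at h
    by_cases h2 : l = j
    · subst h2
      rw [if_pos rfl] at h
      by_cases h1' : l' = i
      · subst h1'
        rw [if_pos rfl] at h
        rcases G_eq h with ⟨rfl, rfl⟩ | ⟨p, p', rfl, rfl, h3, h4⟩
        · exact Or.inr ⟨Or.inr rfl, Or.inl rfl⟩
        · exfalso; omega
      · rw [if_neg h1'] at h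
        by_cases h2' : l' = l
        · subst h2'
          rw [if_pos rfl] at h
          left
          rcases G_eq h with ⟨rfl, rfl⟩ | ⟨p, p', rfl, rfl, h3, h4⟩
          · rfl
          · have : p = p' := Prod.ext (by simpa using h3) h4
            rw [this]
        · rw [if_neg h2'] at h
          exact absurd h ((hlow _ _).trans_lt (G_pos _ _ _)).ne
    · rw [if_neg h2] at h
      by_cases h1' : l' = i
      · rw [if_pos h1'] at h
        exact absurd h.symm ((hlow _ _).trans_lt (G_pos _ _ _)).ne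
      · rw [if_neg h1'] at h
        by_cases h2' : l' = j
        · rw [if_pos h2'] at h
          exact absurd h.symm ((hlow _ _).trans_lt (G_pos _ _ _)).ne
        · rw [if_neg h2'] at h
          left
          have e := hthird l l' h1 h2 h1' h2'
          subst e
          rcases G_eq h with ⟨rfl, rfl⟩ | ⟨p, p', rfl, rfl, h3, h4⟩
          · rfl
          · have : p = p' := Prod.ext (by simpa using h3) h4
            rw [this]

theorem cleavable : Cleavable X (Iio lam) := by
  intro A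
  obtain ⟨i, j, hij, hcol⟩ : ∃ i j : Fin 3, i ≠ j ∧ (((i, ∞) : X) ∈ A ↔ ((j, ∞) : X) ∈ A) := by
    by_cases h0 : ((0, ∞) : X) ∈ A <;> by_cases h1 : ((1, ∞) : X) ∈ A <;> by_cases h2 : ((2, ∞) : X) ∈ A
    · exact ⟨0, 1, by decide, by simp [h0, h1]⟩
    · exact ⟨0, 1, by decide, by simp [h0, h1]⟩
    · exact ⟨0, 2, by decide, by simp [h0, h2]⟩
    · exact ⟨1, 2, by decide, by simp [h1, h2]⟩
    · exact ⟨1, 2, by decide, by simp [h1, h2]⟩
    · exact ⟨0, 2, by decide, by simp [h0, h2]⟩
    · exact ⟨0, 1, by decide, by simp [h0, h1]⟩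
    · exact ⟨0, 1, by decide, by simp [h0, h1]⟩
  refine ⟨fun x => ⟨clv i j x, mem_Iio.mpr (clv_lt i j x)⟩, (clv_continuous i j).subtype_mk _, ?_⟩
  rw [Set.disjoint_left]
  rintro _ ⟨x, hx, rfl⟩ ⟨y, hy, hxy⟩
  have h : clv i j y = clv i j x := congrArg Subtype.val hxy
  rcases clv_eq hij h with h | ⟨h1, h2⟩
  · exact hy (h ▸ hx)
  · rcases h1 with h1 | h1 <;> rcases h2 with h2 | h2 <;> subst h1 <;> subst h2
    · exact hy hx
    · exact hy (hcol.mpr hx)
    · exact hy (hcol.mp hx)
    · exact hy hx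

/-! ### non-embeddability -/

/-- points all of whose open neighbourhoods are uncountable -/
def Unc {Y : Type u} [TopologicalSpace Y] (y : Y) : Prop := ∀ U : Set Y, IsOpen U → y ∈ U → ¬ U.Countable

theorem Unc.image {Y : Type u} {Z : Type v} [TopologicalSpace Y] [TopologicalSpace Z] {e : Y → Z} (he : Continuous e)
    (hinj : Function.Injective e) {y : Y} (h : Unc y) : Unc (e y) := by
  intro U hU hy hcount
  exact h (e ⁻¹' U) (hU.preimage he) hy (hcount.preimage_of_injOn hinj.injOn)

/-- the point `ω₁` of the block `n` of the copy `i` -/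
noncomputable def pp (i : Fin 3) (n : ℕ) : X := (i, ((n, ⟨ω₁, mem_Iic.mpr le_rfl⟩) : ℕ × B))

theorem unc_pp (i : Fin 3) (n : ℕ) : Unc (pp i n) := by
  intro U hU hmem hcount
  -- the trace on the block
  let j : B → X := fun b => (i, ((n, b) : ℕ × B))
  have hj : Continuous j := by
    refine Continuous.prodMk continuous_const ?_
    exact OnePoint.continuous_coe.comp (Continuous.prodMk continuous_const continuous_id)
  have hjinj : Function.Injective j := by
    intro b b' h
    have h1 : (((n, b) : ℕ × B) : OnePoint (ℕ × B)) = ((n, b') : ℕ × B) := congrArg Prod.snd h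
    exact congrArg Prod.snd (OnePoint.coe_injective h1)
  have hV : IsOpen (j ⁻¹' U) := hU.preimage hj
  have hVc : (j ⁻¹' U).Countable := hcount.preimage_of_injOn hjinj.injOn
  obtain ⟨l, hl, hl2⟩ := exists_Ioc_subset_of_mem_nhds (hV.mem_nhds hmem)
    ⟨⟨0, mem_Iic.mpr zero_le⟩, one_pos'⟩
  -- the countable set of ordinals below `ω₁` in the trace
  let S : Set Ordinal.{0} := {o | ∃ h : o < ω₁, (⟨o, mem_Iic.mpr h.le⟩ : B) ∈ j ⁻¹' U}
  have hS : S.Countable := by
    refine (hVc.image Subtype.val).mono ?_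
    rintro o ⟨h, ho⟩
    exact ⟨_, ho, rfl⟩
  have hSc : Countable S := hS.to_subtype
  have hsup : (⨆ o : S, o.1) < ω₁ := Ordinal.iSup_lt_omega_one fun o => o.2.choose
  have hmax : max (⨆ o : S, o.1) l.1 < ω₁ := max_lt hsup hl
  have hb : Order.succ (max (⨆ o : S, o.1) l.1) < ω₁ := lim1.succ_lt hmax
  have hbS : Order.succ (max (⨆ o : S, o.1) l.1) ∈ S := by
    refine ⟨hb, hl2 ⟨?_, ?_⟩⟩
    · exact (show l.1 < Order.succ (max (⨆ o : S, o.1) l.1) from
        lt_of_le_of_lt (le_max_right _ _) (Order.lt_succ _))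
    · exact hb.le
  have h1 : Order.succ (max (⨆ o : S, o.1) l.1) ≤ ⨆ o : S, o.1 :=
    Ordinal.le_iSup (fun o : S => o.1) ⟨_, hbS⟩
  exact absurd (lt_of_le_of_lt (le_max_left _ _) (Order.lt_succ _)) (not_lt.mpr h1)

theorem countable_Iic {g : Ordinal.{0}} (hg : g < ω₁) : (Iic g).Countable := by
  have h1 : Iic g = Iio (Order.succ g) := by
    ext x; simp
  rw [h1, ← Cardinal.le_aleph0_iff_set_countable, Cardinal.mk_Iio_ordinal, ← Cardinal.lift_aleph0.{1, 0}, Cardinal.lift_le]
  have h2 : Order.succ g < ω₁ := lim1.succ_lt hg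
  rw [← Cardinal.ord_aleph, Cardinal.lt_ord] at h2
  exact Cardinal.lt_aleph_one_iff.mp h2

theorem dvd_of_unc {y : Iio lam} (h : Unc y) : ∃ β : Ordinal.{0}, y.1 = ω₁ * β := by
  refine ⟨y.1 / ω₁, ?_⟩
  have hdm : ω₁ * (y.1 / ω₁) + y.1 % ω₁ = y.1 := Ordinal.div_add_mod y.1 ω₁
  have hmod : y.1 % ω₁ < ω₁ := Ordinal.mod_lt y.1 one_pos'.ne'
  by_contra hne
  have hpos : 0 < y.1 % ω₁ := by
    rw [pos_iff_ne_zero]
    intro h0
    rw [h0, add_zero] at hdm
    exact hne hdm.symm
  have hlt : ω₁ * (y.1 / ω₁) < y.1 := by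
    calc ω₁ * (y.1 / ω₁) < ω₁ * (y.1 / ω₁) + y.1 % ω₁ := by
          simpa using (add_lt_add_iff_left (ω₁ * (y.1 / ω₁))).mpr hpos
      _ = y.1 := hdm
  let V : Set (Iio lam) := {z | ω₁ * (y.1 / ω₁) < z.1 ∧ z.1 < Order.succ y.1}
  have hV : IsOpen V := (isOpen_lt continuous_const continuous_subtype_val).inter
    (isOpen_lt continuous_subtype_val continuous_const)
  refine h V hV ⟨hlt, Order.lt_succ _⟩ ?_
  have hsub : Subtype.val '' V ⊆ (fun d => ω₁ * (y.1 / ω₁) + d) '' Iic (y.1 % ω₁) := by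
    rintro _ ⟨z, ⟨hz1, hz2⟩, rfl⟩
    obtain ⟨d, hd⟩ := exists_add_of_le hz1.le
    refine ⟨d, ?_, hd.symm⟩
    have h3 : z.1 ≤ y.1 := Order.lt_succ_iff.mp hz2
    rw [← hdm, hd] at h3
    exact (add_le_add_iff_left _).mp h3
  exact Set.countable_of_injective_of_countable_image Subtype.val_injective.injOn
    (((countable_Iic hmod).image _).mono hsub)

theorem tendsto_pp (i : Fin 3) : Tendsto (pp i) atTop (𝓝 (i, ∞)) := by
  refine Tendsto.prodMk_nhds tendsto_const_nhds ?_
  have h0 : Tendsto (fun n : ℕ => ((n, ⟨ω₁, mem_Iic.mpr le_rfl⟩) : ℕ × B)) atTop (coclosedCompact (ℕ × B)) := by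
    rw [hasBasis_coclosedCompact.tendsto_right_iff]
    rintro s ⟨-, hs⟩
    have hfin : (Prod.fst '' s).Finite := (hs.image continuous_fst).finite_of_discrete
    obtain ⟨N, hN⟩ := hfin.bddAbove
    filter_upwards [eventually_gt_atTop N] with n hn
    intro hp
    have h2 : n ≤ N := hN ⟨_, hp, rfl⟩
    omega
  exact (OnePoint.tendsto_coe_infty (X := ℕ × B)).comp h0

theorem unc_infty (i : Fin 3) : Unc ((i, ∞) : X) := by
  intro U hU hmem
  obtain ⟨n, hn⟩ := ((tendsto_pp i).eventually (hU.mem_nhds hmem)).exists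
  exact unc_pp i n U hU hn

/-- the possible positions of the points at infinity -/
theorem position {e : X → Iio lam} (he : Continuous e) (hinj : Function.Injective e) (i : Fin 3) :
    (e (i, ∞)).1 = ω₁ * ω ∨ (e (i, ∞)).1 = ω₁ * (ω + ω) := by
  obtain ⟨δ, hδ⟩ := dvd_of_unc ((unc_infty i).image he hinj)
  have hδle : δ ≤ ω + ω := by
    have h1 : (e (i, ∞)).1 < lam := mem_Iio.mp (e (i, ∞)).2
    rw [hδ] at h1
    unfold lam at h1
    rw [← Order.succ_eq_add_one, Order.lt_succ_iff, ← mul_add] at h1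
    exact (mul_le_mul_iff_right₀ one_pos').mp h1
  rw [hδ]
  -- the limit case
  suffices hlim : δ = ω ∨ δ = ω + ω by
    rcases hlim with h | h
    · exact Or.inl (by rw [h])
    · exact Or.inr (by rw [h])
  by_contra hcon
  push Not at hcon
  -- `δ` is zero or a successor
  have hsucc : δ = 0 ∨ ∃ ε, δ = Order.succ ε := by
    rcases lt_or_ge δ ω with h | h
    · obtain ⟨n, rfl⟩ := lt_omega0.mp h
      rcases n with _ | n
      · left; simp
      · right
        exact ⟨n, by rw [Order.succ_eq_add_one]; push_cast; rfl⟩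
    · obtain ⟨g, rfl⟩ := exists_add_of_le h
      have hg : g < ω := by
        have h1 : g ≤ ω := (add_le_add_iff_left ω).mp hδle
        refine lt_of_le_of_ne h1 fun h2 => hcon.2 (by rw [h2])
      obtain ⟨n, rfl⟩ := lt_omega0.mp hg
      rcases n with _ | n
      · exfalso; apply hcon.1; simp
      · right
        refine ⟨ω + n, ?_⟩
        rw [Order.succ_eq_add_one, add_assoc]
        push_cast
        rfl
  -- a neighbourhood which contains no other multiple of `ω₁`
  obtain ⟨V, hV, hmemV, hVun⟩ : ∃ V : Set (Iio lam), IsOpen V ∧ e (i, ∞) ∈ V ∧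
      ∀ z ∈ V, ∀ β, z.1 = ω₁ * β → z.1 = (e (i, ∞)).1 := by
    rcases hsucc with h0 | ⟨ε, hε⟩
    · refine ⟨{z | z.1 < 1}, isOpen_lt continuous_subtype_val continuous_const, ?_, ?_⟩
      · change (e (i, ∞)).1 < 1
        rw [hδ, h0, mul_zero]; exact zero_lt_one
      · intro z hz β _
        rw [hδ, h0, mul_zero]
        exact Order.lt_one_iff.mp hz
    · refine ⟨{z | ω₁ * ε < z.1 ∧ z.1 < Order.succ (ω₁ * δ)}, (isOpen_lt continuous_const continuous_subtype_val).inter
        (isOpen_lt continuous_subtype_val continuous_const), ?_, ?_⟩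
      · refine ⟨?_, ?_⟩
        · rw [hδ, hε]
          exact (mul_lt_mul_iff_right₀ one_pos').mpr (Order.lt_succ ε)
        · rw [hδ]; exact Order.lt_succ _
      · rintro z ⟨hz1, hz2⟩ β hβ
        rw [hβ] at hz1 hz2
        have h1 : ε < β := (mul_lt_mul_iff_right₀ one_pos').mp hz1
        have h2 : β ≤ δ := (mul_le_mul_iff_right₀ one_pos').mp (Order.lt_succ_iff.mp hz2)
        have h3 : β = δ := le_antisymm h2 (by rw [hε]; exact Order.succ_le_of_lt h1)
        rw [hβ, hδ, h3]
  have hlimp : Tendsto (fun n => e (pp i n)) atTop (𝓝 (e (i, ∞))) :=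
    (he.tendsto _).comp (tendsto_pp i)
  obtain ⟨n, hn⟩ := (hlimp.eventually (hV.mem_nhds hmemV)).exists
  obtain ⟨β, hβ⟩ := dvd_of_unc ((unc_pp i n).image he hinj)
  have h1 := hinj (Subtype.ext (hVun _ hn β hβ))
  have h2 : (((n, ⟨ω₁, mem_Iic.mpr le_rfl⟩) : ℕ × B) : OnePoint (ℕ × B)) = ∞ := congrArg Prod.snd h1
  exact OnePoint.coe_ne_infty _ h2

theorem not_embeds : ¬ ∃ e : X → Iio lam, IsEmbedding e := by
  rintro ⟨e, he⟩
  have hinj := he.injective
  have h := position he.continuous hinj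
  have key : ∀ i j : Fin 3, i ≠ j → (e (i, ∞)).1 ≠ (e (j, ∞)).1 := by
    intro i j hij hne
    exact hij (congrArg Prod.fst (hinj (Subtype.ext hne)))
  rcases h 0 with h0 | h0 <;> rcases h 1 with h1 | h1 <;> rcases h 2 with h2 | h2
  · exact key 0 1 (by decide) (h0.trans h1.symm)
  · exact key 0 1 (by decide) (h0.trans h1.symm)
  · exact key 0 2 (by decide) (h0.trans h2.symm)
  · exact key 1 2 (by decide) (h1.trans h2.symm)
  · exact key 1 2 (by decide) (h1.trans h2.symm)
  · exact key 0 2 (by decide) (h0.trans h2.symm)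
  · exact key 0 1 (by decide) (h0.trans h1.symm)
  · exact key 0 1 (by decide) (h0.trans h1.symm)

/-- **There are an ordinal `λ > ω₁` and an infinite compactum `X` which is cleavable over `λ` but does not
embed into `λ`.** -/
theorem result : ∃ (lam : Ordinal.{0}) (X : Type 1) (_ : TopologicalSpace X), ω₁ < lam ∧
    CompactSpace X ∧ T2Space X ∧ Infinite X ∧ Cleavable X (Iio lam) ∧ ¬ ∃ e : X → Iio lam, IsEmbedding e := by
  have hB : CompactSpace B := isCompact_iff_compactSpace.mp (by rw [← Icc_bot]; exact isCompact_Icc)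
  refine ⟨lam, X, inferInstance, ?_, inferInstance, inferInstance, ?_, cleavable, not_embeds⟩
  · have h1 : (ω₁ : Ordinal.{0}) ≤ ω₁ * ω := by
      calc (ω₁ : Ordinal.{0}) = ω₁ * 1 := (mul_one _).symm
        _ ≤ ω₁ * ω := by gcongr; exact one_lt_omega0.le
    unfold lam
    rw [← Order.succ_eq_add_one, Order.lt_succ_iff]
    exact h1.trans le_self_add
  · refine Infinite.of_injective (fun n : ℕ => pp 0 n) ?_
    intro m n h
    have h1 : (((m, ⟨ω₁, mem_Iic.mpr le_rfl⟩) : ℕ × B) : OnePoint (ℕ × B)) = ((n, ⟨ω₁, mem_Iic.mpr le_rfl⟩) : ℕ × B) :=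
      congrArg Prod.snd h
    exact congrArg Prod.fst (OnePoint.coe_injective h1)

end Pool.Agent.Results.MP_23516e_gt.NotEmbeddable
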